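import Pool.Agent.Work.MP_0c110c_nt.Special

set_option autoImplicit false

namespace Pool.Agent.Work.MP_0c110c_nt

open Finset Polynomial

/-- A real skew-symmetric matrix has nonnegative determinant. -/
theorem det_nonneg_of_skew {m : ℕ} (A : Matrix (Fin m) (Fin m) ℝ) (hA : A.transpose = -A) :
    0 ≤ A.det := by
  by_contra hneg
  push Not at hneg
  let h : ℝ → ℝ := fun t => ((1 - t) • A + t • (1 : Matrix (Fin m) (Fin m) ℝ)).det
  have hcont : Continuous h := by
    apply Continuous.matrix_det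
    fun_prop
  have h0 : h 0 = A.det := by simp [h]
  have h1 : h 1 = 1 := by simp [h]
  have hmem : (0 : ℝ) ∈ Set.Icc (h 0) (h 1) := by
    rw [h0, h1]; exact ⟨hneg.le, zero_le_one⟩
  obtain ⟨t, ht, hht⟩ := intermediate_value_Icc (zero_le_one) hcont.continuousOn hmem
  have ht0 : t ≠ 0 := by
    rintro rfl
    rw [h0] at hht
    exact hneg.ne hht
  obtain ⟨v, hv0, hv⟩ := Matrix.exists_mulVec_eq_zero_iff.mpr hht
  apply hv0
  have hskew : v ⬝ᵥ (A.mulVec v) = 0 := by
    have e1 : v ⬝ᵥ (A.mulVec v) = (Matrix.vecMul v A) ⬝ᵥ v := Matrix.dotProduct_mulVec v A v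
    have e2 : Matrix.vecMul v A = A.transpose.mulVec v := (Matrix.mulVec_transpose A v).symm
    have e4 : A.mulVec v ⬝ᵥ v = v ⬝ᵥ A.mulVec v := dotProduct_comm _ _
    rw [e2, hA, Matrix.neg_mulVec, neg_dotProduct, e4] at e1
    linarith
  have e3 : v ⬝ᵥ (((1 - t) • A + t • (1 : Matrix (Fin m) (Fin m) ℝ)).mulVec v) = 0 := by
    rw [hv]; simp
  rw [Matrix.add_mulVec, dotProduct_add, Matrix.smul_mulVec, Matrix.smul_mulVec,
    dotProduct_smul, dotProduct_smul, hskew, Matrix.one_mulVec, smul_zero, zero_add,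
    smul_eq_mul] at e3
  have e4 := (mul_eq_zero.mp e3).resolve_left ht0
  exact dotProduct_self_eq_zero.mp e4

section Final

variable {p : ℕ} [hp : Fact p.Prime]

/-- The integer Toeplitz matrix. -/
def TZ (p : ℕ) [Fact p.Prime] (m : ℕ) : Matrix (Fin m) (Fin m) ℤ :=
  Matrix.of fun j k => legendreSym p (((j : ℕ) : ℤ) - ((k : ℕ) : ℤ))

lemma TZ_det_cast (K : Type*) [Field K] (m : ℕ) : (((TZ p m).det : ℤ) : K) = (TT p K m).det := by
  have h1 := RingHom.map_det (Int.castRingHom K) (TZ p m)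
  rw [eq_intCast] at h1
  rw [h1]
  congr 1
  ext j k
  simp only [TZ, TT, RingHom.mapMatrix_apply, Matrix.map_apply, Matrix.of_apply, eq_intCast]
  rw [← chi_intCast]
  push_cast; rfl

lemma exists_primitive (K : Type*) [Field K] [IsAlgClosed K] (hpK : (p : K) ≠ 0) :
    ∃ ψ : AddChar (ZMod p) K, ψ.IsPrimitive := by
  have : NeZero (p : K) := ⟨hpK⟩
  obtain ⟨ζ, hζ⟩ := HasEnoughRootsOfUnity.exists_primitiveRoot K p
  exact ⟨_, AddChar.zmodChar_primitive_of_primitive_root p hζ⟩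

lemma TZ_skew (hp4 : p % 4 = 3) (m : ℕ) : (TZ p m).transpose = -(TZ p m) := by
  ext j k
  rw [Matrix.transpose_apply, Matrix.neg_apply]
  simp only [TZ, Matrix.of_apply]
  have h1 : (((k : ℕ) : ℤ) - ((j : ℕ) : ℤ)) = -(((j : ℕ) : ℤ) - ((k : ℕ) : ℤ)) := by ring
  rw [h1, legendreSym.at_neg (by omega)]
  have h2 : ZMod.χ₄ (p : ZMod 4) = -1 := by
    have h : ((p % 4 : ℕ) : ZMod 4) = (p : ZMod 4) := ZMod.natCast_mod p 4
    rw [← h, hp4]; decide
  rw [h2]; ring

theorem TZ_big_unit {m : ℕ} (hm : p = 2 * m + 3) (hp4 : p % 4 = 3) :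
    (TZ p (m + 2)).det.natAbs = 1 := by
  by_contra hne
  obtain ⟨l, hl, hdvd⟩ := Nat.exists_prime_and_dvd hne
  have : Fact l.Prime := ⟨hl⟩
  have h0 : (((TZ p (m + 2)).det : ℤ) : ZMod l) = 0 := by
    rw [ZMod.intCast_zmod_eq_zero_iff_dvd]
    exact Int.natCast_dvd.mpr hdvd
  by_cases hl2 : l = 2
  · subst hl2
    rw [TZ_det_cast (ZMod 2)] at h0
    exact det_ne_zero_two hm hp4 h0
  · by_cases hlp : l = p
    · subst hlp
      rw [TZ_det_cast (ZMod l)] at h0
      exact det_ne_zero_self hm h0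
    · let K := AlgebraicClosure (ZMod l)
      have h1 : (((TZ p (m + 2)).det : ℤ) : K) = 0 := by
        have := congrArg (algebraMap (ZMod l) K) h0
        simpa using this
      have hchar : CharP K l := by
        exact charP_of_injective_algebraMap (algebraMap (ZMod l) K).injective l
      have h2K : (2 : K) ≠ 0 := by
        intro h
        have h' : ((2 : ℕ) : K) = 0 := by exact_mod_cast h
        rw [CharP.cast_eq_zero_iff K l] at h'
        exact hl2 ((Nat.prime_dvd_prime_iff_eq hl Nat.prime_two).mp h')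
      have hpK : (p : K) ≠ 0 := by
        intro h
        rw [CharP.cast_eq_zero_iff K l] at h
        exact hlp ((Nat.prime_dvd_prime_iff_eq hl hp.out).mp h)
      obtain ⟨ψ, hψ⟩ := exists_primitive (p := p) K hpK
      rw [TZ_det_cast K] at h1
      exact det_ne_zero_generic hm hp4 h2K hpK hψ h1

theorem TZ_det_eq {m : ℕ} (hm : p = 2 * m + 3) (hp4 : p % 4 = 3) :
    (TZ p (m + 2)).det = (TZ p m).det := by
  have hpK : (p : ℂ) ≠ 0 := by exact_mod_cast hp.out.ne_zero
  obtain ⟨ψ, hψ⟩ := exists_primitive (p := p) ℂ hpK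
  have h := det_eq hm hp4 two_ne_zero hpK hψ
  rw [← TZ_det_cast ℂ, ← TZ_det_cast ℂ] at h
  exact_mod_cast h

theorem TZ_det_one {m : ℕ} (hm : p = 2 * m + 3) (hp4 : p % 4 = 3) : (TZ p m).det = 1 := by
  have h1 := TZ_big_unit hm hp4
  rw [TZ_det_eq hm hp4] at h1
  have h2 : 0 ≤ (TZ p m).det := by
    have h3 : (0 : ℝ) ≤ (((TZ p m).det : ℤ) : ℝ) := by
      have h4 := RingHom.map_det (Int.castRingHom ℝ) (TZ p m)
      rw [eq_intCast] at h4
      rw [h4]
      apply det_nonneg_of_skew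
      have h5 := TZ_skew hp4 (p := p) m
      have h6 := congrArg (Int.castRingHom ℝ).mapMatrix h5
      rw [map_neg] at h6
      exact h6
    exact_mod_cast h3
  omega

end Final

end Pool.Agent.Work.MP_0c110c_nt
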