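import Pool.Agent.Work.MP_0c110c_nt.Core

set_option autoImplicit false

namespace Pool.Agent.Work.MP_0c110c_nt

open Finset Polynomial

section Conv

variable {p : ℕ} [hp : Fact p.Prime] {K : Type*} [Field K]

lemma sum_even_odd {M : Type*} [AddCommMonoid M] (f : ℕ → M) (n : ℕ) :
    ∑ i ∈ range (2 * n + 1), f i =
      ∑ k ∈ range (n + 1), f (2 * k) + ∑ i ∈ range n, f (2 * i + 1) := by
  induction n with
  | zero => simp
  | succ n ih =>
    rw [show 2 * (n + 1) + 1 = 2 * n + 1 + 1 + 1 by ring, sum_range_succ, sum_range_succ, ih,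
      sum_range_succ (fun k => f (2 * k)) (n + 1), sum_range_succ (fun i => f (2 * i + 1)) n,
      show 2 * n + 1 + 1 = 2 * (n + 1) by ring]
    abel

lemma sum_zmod_eq_units {M : Type*} [AddCommMonoid M] (F : ZMod p → M) :
    ∑ a : ZMod p, F a = F 0 + ∑ b : (ZMod p)ˣ, F (b : ZMod p) := by
  classical
  have h1 : ∑ a : ZMod p, F a = F 0 + ∑ a ∈ (univ : Finset (ZMod p)).erase 0, F a := by
    rw [Finset.add_sum_erase _ _ (Finset.mem_univ _)]
  rw [h1]
  congr 1
  symm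
  refine Finset.sum_bij (fun (b : (ZMod p)ˣ) _ => (b : ZMod p)) ?_ ?_ ?_ ?_
  · intro b _; simp
  · intro b _ c _ h; exact Units.ext h
  · intro a ha
    have : a ≠ 0 := by simpa using ha
    exact ⟨Units.mk0 a this, Finset.mem_univ _, rfl⟩
  · intro b _; rfl

lemma sum_units_mul {M : Type*} [AddCommMonoid M] (F : ZMod p → M) {c : ZMod p} (hc : c ≠ 0) :
    ∑ b : (ZMod p)ˣ, F (c * (b : ZMod p)) = ∑ b : (ZMod p)ˣ, F (b : ZMod p) :=
  Fintype.sum_bijective (fun b : (ZMod p)ˣ => Units.mk0 c hc * b)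
        (Group.mulLeft_bijective _) _ _ fun x ↦ rfl

variable (ψ : AddChar (ZMod p) K)

/-- evaluation of `P₀` split into even and odd parts -/
lemma PP_eval_split {n : ℕ} (hn : p = 2 * n + 1) (x : K) :
    (PP ψ).eval x = ∑ k ∈ range (n + 1), (PP ψ).coeff (2 * k) * x ^ (2 * k) +
      ∑ i ∈ range n, (PP ψ).coeff (2 * i + 1) * x ^ (2 * i + 1) := by
  rw [eval_eq_sum_range, PP_natDegree, show p - 1 + 1 = 2 * n + 1 by omega, sum_even_odd]

lemma sum_even_coeff {n : ℕ} (hn : p = 2 * n + 1) (hp4 : p % 4 = 3) (h2K : (2 : K) ≠ 0) :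
    ∑ k ∈ range (n + 1), (PP ψ).coeff (2 * k) = 0 := by
  have h1 := PP_eval_split ψ hn 1
  have h2 := PP_eval_split ψ hn (-1)
  have h3 := PP_eval_neg_one ψ hp4
  have e1 : ∀ k : ℕ, (-1 : K) ^ (2 * k) = 1 := fun k => by rw [pow_mul]; simp
  have e2 : ∀ k : ℕ, (-1 : K) ^ (2 * k + 1) = -1 := fun k => by rw [pow_succ, e1]; ring
  simp only [one_pow, mul_one] at h1
  simp only [e1, e2, mul_one, mul_neg, sum_neg_distrib] at h2
  have h4 : (2 : K) * ∑ k ∈ range (n + 1), (PP ψ).coeff (2 * k) = 0 := by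
    linear_combination h3 - h1 - h2
  exact (mul_eq_zero.mp h4).resolve_left h2K

/-- the convolution of the odd part with the character -/
noncomputable def yy (n : ℕ) (j : ZMod p) : K :=
  ∑ i ∈ range n, chi p K (j - ((n + 1 + i : ℕ) : ZMod p)) * (PP ψ).coeff (2 * i + 1)

variable {ψ}

lemma psi_two_mul {n : ℕ} (hn : p = 2 * n + 1) (b : ZMod p) (i : ℕ) :
    ψ (2 * b * ((n + 1 + i : ℕ) : ZMod p)) = ψ b * ψ (2 * b) ^ i := by
  have h0 : ((2 * n + 1 : ℕ) : ZMod p) = 0 := by rw [← hn]; simp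
  push_cast at h0
  have h1 : 2 * b * ((n + 1 + i : ℕ) : ZMod p) = b + i • (2 * b) := by
    push_cast
    rw [nsmul_eq_mul]
    linear_combination b * h0
  rw [h1, AddChar.map_add_eq_mul, AddChar.map_nsmul_eq_pow]

lemma sum_units_psi (hψ : ψ.IsPrimitive) (x : ZMod p) :
    ∑ b : (ZMod p)ˣ, ψ ((b : ZMod p) * x) = (if x = 0 then (p : K) else 0) - 1 := by
  classical
  have h1 := AddChar.sum_mulShift (R := ZMod p) (R' := K) x hψ
  have h2 := sum_zmod_eq_units (fun a : ZMod p => ψ (a * x))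
  rw [h1] at h2
  simp only [zero_mul, AddChar.map_zero_eq_one, ZMod.card] at h2
  rw [eq_sub_iff_add_eq, add_comm, ← h2]
  split_ifs <;> simp

lemma y_main {n : ℕ} (hn : p = 2 * n + 1) (hp4 : p % 4 = 3) (h2K : (2 : K) ≠ 0)
    (hψ : ψ.IsPrimitive) (j : ZMod p) :
    gaussSum (chi p K) ψ * yy ψ n j =
      (p : K) * ∑ k ∈ range (n + 1), if ((k : ℕ) : ZMod p) = j then (PP ψ).coeff (2 * k) else 0 := by
  classical
  have h2 : (2 : ZMod p) ≠ 0 := two_ne_zero_zmod hp4
  set τ := gaussSum (chi p K) ψ with hτ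
  -- step (ii)
  have step1 : τ * yy ψ n j = ∑ a : ZMod p, chi p K a *
      ∑ i ∈ range n, ψ ((j - ((n + 1 + i : ℕ) : ZMod p)) * a) * (PP ψ).coeff (2 * i + 1) := by
    unfold yy
    rw [Finset.mul_sum]
    simp_rw [Finset.mul_sum]
    rw [Finset.sum_comm]
    refine Finset.sum_congr rfl fun i _ => ?_
    have := gauss_shift ψ hp4 (j - ((n + 1 + i : ℕ) : ZMod p))
    calc τ * (chi p K (j - ((n + 1 + i : ℕ) : ZMod p)) * (PP ψ).coeff (2 * i + 1))
        = (chi p K (j - ((n + 1 + i : ℕ) : ZMod p)) * τ) * (PP ψ).coeff (2 * i + 1) := by ring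
      _ = _ := by
        rw [← this, Finset.sum_mul]
        refine Finset.sum_congr rfl fun a _ => by ring
  -- step (iii)
  have hm2 : (-2 : ZMod p) ≠ 0 := neg_ne_zero.mpr h2
  have step2 : τ * yy ψ n j = ∑ b : (ZMod p)ˣ, chi p K (-2 * (b : ZMod p)) *
      ∑ i ∈ range n, ψ ((j - ((n + 1 + i : ℕ) : ZMod p)) * (-2 * (b : ZMod p))) *
        (PP ψ).coeff (2 * i + 1) := by
    rw [step1, sum_zmod_eq_units, MulChar.map_zero, zero_mul, zero_add]
    exact (sum_units_mul (fun a : ZMod p => chi p K a *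
      ∑ i ∈ range n, ψ ((j - ((n + 1 + i : ℕ) : ZMod p)) * a) * (PP ψ).coeff (2 * i + 1)) hm2).symm
  -- step (iv)-(vi)
  have step3 : ∀ b : (ZMod p)ˣ, chi p K (-2 * (b : ZMod p)) *
      ∑ i ∈ range n, ψ ((j - ((n + 1 + i : ℕ) : ZMod p)) * (-2 * (b : ZMod p))) *
        (PP ψ).coeff (2 * i + 1) =
      ∑ k ∈ range (n + 1), (PP ψ).coeff (2 * k) * ψ (2 * (b : ZMod p) * ((k : ZMod p) - j)) := by
    intro b
    have hsplit := PP_eval_split ψ hn (tt ψ b)
    rw [PP_eval] at hsplit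
    have hodd : chi p K (-2 * (b : ZMod p)) *
        ∑ i ∈ range n, ψ ((j - ((n + 1 + i : ℕ) : ZMod p)) * (-2 * (b : ZMod p))) *
          (PP ψ).coeff (2 * i + 1) =
        - ψ (-(2 * (b : ZMod p) * j)) *
          ∑ i ∈ range n, (PP ψ).coeff (2 * i + 1) * tt ψ b ^ (2 * i + 1) := by
      rw [Finset.mul_sum, Finset.mul_sum]
      refine Finset.sum_congr rfl fun i _ => ?_
      have e1 : (j - ((n + 1 + i : ℕ) : ZMod p)) * (-2 * (b : ZMod p)) =
          -(2 * (b : ZMod p) * j) + 2 * (b : ZMod p) * ((n + 1 + i : ℕ) : ZMod p) := by ring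
      rw [e1, AddChar.map_add_eq_mul, psi_two_mul hn]
      have e2 : chi p K (-2 * (b : ZMod p)) = - chi p K (2 * (b : ZMod p)) := by
        rw [neg_mul, chi_neg hp4]
      have e3 : tt ψ b ^ (2 * i + 1) =
          chi p K (2 * (b : ZMod p)) * ψ (b : ZMod p) * ψ (2 * (b : ZMod p)) ^ i := by
        rw [pow_succ, pow_mul, tt_sq ψ hp4]
        unfold tt; ring
      rw [e2, e3]; ring
    have heven : ∑ k ∈ range (n + 1), (PP ψ).coeff (2 * k) *
          ψ (2 * (b : ZMod p) * ((k : ZMod p) - j)) =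
        ψ (-(2 * (b : ZMod p) * j)) *
          ∑ k ∈ range (n + 1), (PP ψ).coeff (2 * k) * tt ψ b ^ (2 * k) := by
      rw [Finset.mul_sum]
      refine Finset.sum_congr rfl fun k _ => ?_
      have e1 : 2 * (b : ZMod p) * ((k : ZMod p) - j) =
          -(2 * (b : ZMod p) * j) + k • (2 * (b : ZMod p)) := by
        rw [nsmul_eq_mul]; ring
      rw [e1, AddChar.map_add_eq_mul, AddChar.map_nsmul_eq_pow, pow_mul, tt_sq ψ hp4]
      ring
    rw [hodd, heven]
    linear_combination (ψ (-(2 * (b : ZMod p) * j))) * hsplit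
  rw [step2]
  rw [Finset.sum_congr rfl fun b _ => step3 b, Finset.sum_comm]
  have step4 : ∀ k ∈ range (n + 1), ∑ b : (ZMod p)ˣ, (PP ψ).coeff (2 * k) *
      ψ (2 * (b : ZMod p) * ((k : ZMod p) - j)) =
      (p : K) * (if ((k : ℕ) : ZMod p) = j then (PP ψ).coeff (2 * k) else 0) -
        (PP ψ).coeff (2 * k) := by
    intro k _
    rw [← Finset.mul_sum]
    have := sum_units_mul (fun a : ZMod p => ψ (a * ((k : ZMod p) - j))) h2
    rw [this, sum_units_psi hψ]
    simp only [sub_eq_zero]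
    split_ifs <;> ring
  rw [Finset.sum_congr rfl step4, Finset.sum_sub_distrib, sum_even_coeff ψ hn hp4 h2K, sub_zero,
    Finset.mul_sum]

end Conv

end Pool.Agent.Work.MP_0c110c_nt
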