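import Mathlib

set_option autoImplicit false

namespace Pool.Agent.Work.MP_0c110c_nt

open Finset Polynomial

section Core

variable {p : ℕ} [hp : Fact p.Prime] {K : Type*} [Field K]

/-- The quadratic character of `ZMod p` with values in `K`. -/
noncomputable def chi (p : ℕ) [Fact p.Prime] (K : Type*) [Field K] : MulChar (ZMod p) K :=
  (quadraticChar (ZMod p)).ringHomComp (Int.castRingHom K)

lemma chi_apply (a : ZMod p) : chi p K a = ((quadraticChar (ZMod p) a : ℤ) : K) := rfl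

lemma chi_intCast (a : ℤ) : chi p K (a : ZMod p) = ((legendreSym p a : ℤ) : K) := rfl

lemma chi_sq {a : ZMod p} (ha : a ≠ 0) : chi p K a * chi p K a = 1 := by
  rw [chi_apply]
  have h := quadraticChar_sq_one ha
  rw [← Int.cast_mul, ← sq, h]
  simp

lemma chi_ne_zero {a : ZMod p} (ha : a ≠ 0) : chi p K a ≠ 0 := by
  intro h
  have := chi_sq (K := K) ha
  rw [h] at this
  simp at this

lemma ringChar_ne_two (hp4 : p % 4 = 3) : ringChar (ZMod p) ≠ 2 := by
  rw [ZMod.ringChar_zmod_n]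
  omega

lemma two_ne_zero_zmod (hp4 : p % 4 = 3) : (2 : ZMod p) ≠ 0 := by
  intro h
  have h2 : ((2 : ℕ) : ZMod p) = 0 := by exact_mod_cast h
  rw [ZMod.natCast_eq_zero_iff] at h2
  have := Nat.le_of_dvd (by norm_num) h2
  have := hp.out.two_le
  omega

lemma chi_neg_one (hp4 : p % 4 = 3) : chi p K (-1) = -1 := by
  rw [chi_apply, quadraticChar_neg_one (ringChar_ne_two hp4), ZMod.card]
  have : (p : ZMod 4) = 3 := by
    have h : ((p % 4 : ℕ) : ZMod 4) = (p : ZMod 4) := ZMod.natCast_mod p 4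
    rw [← h, hp4]; rfl
  rw [this]
  have : ZMod.χ₄ 3 = -1 := by decide
  rw [this]; simp

lemma chi_neg (hp4 : p % 4 = 3) (a : ZMod p) : chi p K (-a) = - chi p K a := by
  rw [neg_eq_neg_one_mul, map_mul, chi_neg_one hp4]; ring

variable (ψ : AddChar (ZMod p) K)

/-- Fourier transform of the quadratic character. -/
lemma gauss_shift (hp4 : p % 4 = 3) (a : ZMod p) :
    ∑ x : ZMod p, chi p K x * ψ (a * x) = chi p K a * gaussSum (chi p K) ψ := by
  by_cases ha : a = 0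
  · subst ha
    simp only [zero_mul, AddChar.map_zero_eq_one, mul_one, MulChar.map_zero]
    have := quadraticChar_sum_zero (F := ZMod p) (ringChar_ne_two hp4)
    simp only [chi_apply]
    rw [← Int.cast_sum, this]; simp
  · have h := gaussSum_mulShift (chi p K) ψ (Units.mk0 a ha)
    rw [← h, Units.val_mk0, ← mul_assoc, chi_sq ha, one_mul]
    rfl

/-- The `p-1` points `t_b = χ(2b) ψ(b)`. -/
noncomputable def tt (b : (ZMod p)ˣ) : K := chi p K (2 * (b : ZMod p)) * ψ (b : ZMod p)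

lemma tt_sq (hp4 : p % 4 = 3) (b : (ZMod p)ˣ) : tt ψ b ^ 2 = ψ (2 * (b : ZMod p)) := by
  unfold tt
  have h2 : (2 * (b : ZMod p)) ≠ 0 := mul_ne_zero (two_ne_zero_zmod hp4) b.ne_zero
  have := chi_sq (K := K) h2
  calc (chi p K (2 * (b : ZMod p)) * ψ (b : ZMod p)) ^ 2
      = (chi p K (2 * (b : ZMod p)) * chi p K (2 * (b : ZMod p))) *
        (ψ (b : ZMod p) * ψ (b : ZMod p)) := by ring
    _ = ψ (2 * (b : ZMod p)) := by rw [this, one_mul, ← AddChar.map_add_eq_mul, two_mul]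

lemma psi_ne_zero (a : ZMod p) : ψ a ≠ 0 := by
  intro h
  have h1 : ψ (a + -a) = ψ a * ψ (-a) := AddChar.map_add_eq_mul _ _ _
  rw [h, zero_mul, add_neg_cancel, AddChar.map_zero_eq_one] at h1
  exact one_ne_zero h1

lemma tt_ne_zero (hp4 : p % 4 = 3) (b : (ZMod p)ˣ) : tt ψ b ≠ 0 := by
  unfold tt
  exact mul_ne_zero (chi_ne_zero (mul_ne_zero (two_ne_zero_zmod hp4) b.ne_zero)) (psi_ne_zero ψ _)

lemma tt_neg (hp4 : p % 4 = 3) (b : (ZMod p)ˣ) : tt ψ (-b) * tt ψ b = -1 := by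
  have hb : (2 * (b : ZMod p)) ≠ 0 := mul_ne_zero (two_ne_zero_zmod hp4) b.ne_zero
  unfold tt
  rw [Units.val_neg, mul_neg, chi_neg hp4]
  calc -chi p K (2 * (b : ZMod p)) * ψ (-(b : ZMod p)) *
        (chi p K (2 * (b : ZMod p)) * ψ (b : ZMod p))
      = -((chi p K (2 * (b : ZMod p)) * chi p K (2 * (b : ZMod p))) *
          (ψ (-(b : ZMod p)) * ψ (b : ZMod p))) := by ring
    _ = -1 := by
      rw [chi_sq hb, one_mul, ← AddChar.map_add_eq_mul, neg_add_cancel, AddChar.map_zero_eq_one]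

lemma psi_sum {ι : Type*} (s : Finset ι) (f : ι → ZMod p) :
    ψ (∑ i ∈ s, f i) = ∏ i ∈ s, ψ (f i) := by
  classical
  induction s using Finset.induction_on with
  | empty => simp
  | insert a s ha ih =>
    rw [Finset.sum_insert ha, Finset.prod_insert ha, AddChar.map_add_eq_mul, ih]

lemma prod_tt (hp4 : p % 4 = 3) : ∏ b : (ZMod p)ˣ, tt ψ b = -1 := by
  have h2 : (2 : ZMod p) ≠ 0 := two_ne_zero_zmod hp4
  unfold tt
  rw [Finset.prod_mul_distrib]
  have hA : ∏ b : (ZMod p)ˣ, chi p K (2 * (b : ZMod p)) = -1 := by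
    rw [← map_prod]
    have h1 : ∏ b : (ZMod p)ˣ, (2 * (b : ZMod p)) = ∏ b : (ZMod p)ˣ, (b : ZMod p) := by
      exact Fintype.prod_bijective (fun b : (ZMod p)ˣ => Units.mk0 2 h2 * b)
        (Group.mulLeft_bijective _) _ _ fun x ↦ rfl
    have h3 : ∏ b : (ZMod p)ˣ, (b : ZMod p) = -1 := by
      have := FiniteField.prod_univ_units_id_eq_neg_one (K := ZMod p)
      have h4 := congrArg (Units.val) this
      rw [Units.coe_prod] at h4
      simpa using h4
    rw [h1, h3, chi_neg_one hp4]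
  have hB : ∏ b : (ZMod p)ˣ, ψ (b : ZMod p) = 1 := by
    have h1 : ∑ b : (ZMod p)ˣ, (2 * (b : ZMod p)) = ∑ b : (ZMod p)ˣ, (b : ZMod p) := by
      exact Fintype.sum_bijective (fun b : (ZMod p)ˣ => Units.mk0 2 h2 * b)
        (Group.mulLeft_bijective _) _ _ fun x ↦ rfl
    rw [← Finset.mul_sum] at h1
    have h3 : ∑ b : (ZMod p)ˣ, (b : ZMod p) = 0 := by
      have : (2 : ZMod p) * ∑ b : (ZMod p)ˣ, (b : ZMod p) = (1 : ZMod p) * ∑ b : (ZMod p)ˣ, (b : ZMod p) := by
        rw [h1, one_mul]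
      linear_combination this
    have h4 : ψ (∑ b : (ZMod p)ˣ, (b : ZMod p)) = ∏ b : (ZMod p)ˣ, ψ (b : ZMod p) := by
      exact psi_sum ψ _ _
    rw [← h4, h3, AddChar.map_zero_eq_one]
  rw [hA, hB, mul_one]

/-- The polynomial `P₀ = ∏ (X - t_b)`. -/
noncomputable def PP : K[X] := ∏ b : (ZMod p)ˣ, (X - C (tt ψ b))

lemma PP_monic : (PP ψ).Monic := monic_prod_of_monic _ _ fun _ _ => monic_X_sub_C _

lemma PP_natDegree : (PP ψ).natDegree = p - 1 := by
  unfold PP
  rw [natDegree_prod_of_monic _ _ fun _ _ => monic_X_sub_C _]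
  simp [ZMod.card_units_eq_totient, Nat.totient_prime hp.out]

lemma PP_eval (b : (ZMod p)ˣ) : (PP ψ).eval (tt ψ b) = 0 := by
  unfold PP
  rw [eval_prod]
  exact Finset.prod_eq_zero (Finset.mem_univ b) (by simp)

lemma PP_eval_neg_one (hp4 : p % 4 = 3) : (PP ψ).eval (-1) = - (PP ψ).eval 1 := by
  have h1 : (PP ψ).eval (-1) = ∏ b : (ZMod p)ˣ, (-1 - tt ψ b) := by
    unfold PP; rw [eval_prod]; simp
  have h2 : (PP ψ).eval 1 = ∏ b : (ZMod p)ˣ, (1 - tt ψ b) := by
    unfold PP; rw [eval_prod]; simp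
  have h3 : ∏ b : (ZMod p)ˣ, (-1 - tt ψ b) = ∏ b : (ZMod p)ˣ, (-1 - tt ψ (-b)) := by
    exact (Fintype.prod_bijective (fun b : (ZMod p)ˣ => -b) (neg_involutive.bijective) _ _
      fun x ↦ rfl).symm
  have h4 : ∀ b : (ZMod p)ˣ, (-1 - tt ψ (-b)) * tt ψ b = 1 - tt ψ b := by
    intro b
    have := tt_neg ψ hp4 b
    linear_combination (-1 : K) * this
  have h5 : (∏ b : (ZMod p)ˣ, (-1 - tt ψ (-b))) * ∏ b : (ZMod p)ˣ, tt ψ b =
      ∏ b : (ZMod p)ˣ, (1 - tt ψ b) := by
    rw [← Finset.prod_mul_distrib]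
    exact Finset.prod_congr rfl fun b _ => h4 b
  rw [prod_tt ψ hp4] at h5
  rw [h1, h2, h3, ← h5]; ring

variable {ψ}

lemma tt_injective (hp4 : p % 4 = 3) (hψ : ψ.IsPrimitive) : Function.Injective (tt ψ) := by
  intro b c h
  have h1 : ψ (2 * (b : ZMod p)) = ψ (2 * (c : ZMod p)) := by
    rw [← tt_sq ψ hp4, ← tt_sq ψ hp4, h]
  have h2 : (2 * (b : ZMod p)) = 2 * (c : ZMod p) := by
    have hψ1 : ψ ≠ 1 := by
      have := hψ one_ne_zero
      rwa [AddChar.mulShift_one] at this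
    by_contra hne
    have h3 : ψ (2 * (b : ZMod p) - 2 * (c : ZMod p)) = 1 := by
      rw [AddChar.map_sub_eq_div, h1, div_self (psi_ne_zero ψ _)]
    set d := 2 * (b : ZMod p) - 2 * (c : ZMod p) with hd
    have hd0 : d ≠ 0 := sub_ne_zero.mpr hne
    apply hψ hd0
    ext x
    rw [AddChar.mulShift_apply, AddChar.one_apply]
    have hx : ψ (d * x) = ψ d ^ x.val := by
      have : d * x = x.val • d := by
        rw [nsmul_eq_mul, ZMod.natCast_zmod_val, mul_comm]
      rw [this, AddChar.map_nsmul_eq_pow]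
    rw [hx, h3, one_pow]
  exact Units.ext (mul_left_cancel₀ (two_ne_zero_zmod hp4) h2)

lemma psi_eq_one_iff (hψ : ψ.IsPrimitive) (d : ZMod p) : ψ d = 1 ↔ d = 0 := by
  constructor
  · intro h3
    by_contra hd0
    apply hψ hd0
    ext x
    rw [AddChar.mulShift_apply, AddChar.one_apply]
    have hx : ψ (d * x) = ψ d ^ x.val := by
      have : d * x = x.val • d := by
        rw [nsmul_eq_mul, ZMod.natCast_zmod_val, mul_comm]
      rw [this, AddChar.map_nsmul_eq_pow]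
    rw [hx, h3, one_pow]
  · rintro rfl; exact AddChar.map_zero_eq_one _

lemma PP_eval_one_ne_zero (hp4 : p % 4 = 3) (hψ : ψ.IsPrimitive) : (PP ψ).eval 1 ≠ 0 := by
  unfold PP
  rw [eval_prod, Finset.prod_ne_zero_iff]
  intro b _ h
  simp only [eval_sub, eval_X, eval_C] at h
  have h1 : tt ψ b = 1 := by linear_combination -h
  have h2 := tt_sq ψ hp4 b
  rw [h1, one_pow] at h2
  have h3 := (psi_eq_one_iff hψ _).mp h2.symm
  exact (mul_ne_zero (two_ne_zero_zmod hp4) b.ne_zero) h3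

lemma gauss_sq (hp4 : p % 4 = 3) (h2K : (2 : K) ≠ 0) (hψ : ψ.IsPrimitive) :
    gaussSum (chi p K) ψ ^ 2 = - (p : K) := by
  have hne : chi p K ≠ 1 := by
    intro h
    have h1 : chi p K (-1) = 1 := by
      rw [h]; exact MulChar.one_apply (isUnit_one.neg)
    rw [chi_neg_one hp4] at h1
    apply h2K
    linear_combination -h1
  have hq : (chi p K).IsQuadratic := by
    exact (quadraticChar_isQuadratic (ZMod p)).comp _
  rw [gaussSum_sq hne hq hψ, chi_neg_one hp4, ZMod.card]; ring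

end Core

end Pool.Agent.Work.MP_0c110c_nt
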