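import Pool.Agent.Work.MP_0c110c_nt.Conv

set_option autoImplicit false

namespace Pool.Agent.Work.MP_0c110c_nt

open Finset Polynomial

section DetEq

variable {p : ℕ} [hp : Fact p.Prime] {K : Type*} [Field K]

/-- The Toeplitz matrix of the quadratic character. -/
noncomputable def TT (p : ℕ) [Fact p.Prime] (K : Type*) [Field K] (m : ℕ) :
    Matrix (Fin m) (Fin m) K :=
  Matrix.of fun j k => chi p K (((j : ℕ) : ZMod p) - ((k : ℕ) : ZMod p))

variable (ψ : AddChar (ZMod p) K)

/-- first vector: odd coefficients, then zero -/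
noncomputable def xx (m : ℕ) (k : ℕ) : K := if k < m + 1 then (PP ψ).coeff (2 * k + 1) else 0

/-- second vector: zero, then odd coefficients -/
noncomputable def xx' (k : ℕ) : K := if k = 0 then 0 else (PP ψ).coeff (2 * k - 1)

lemma sum_xx (m : ℕ) (a : ℕ) :
    ∑ k ∈ range (m + 2), chi p K ((a : ZMod p) - (k : ZMod p)) * xx ψ m k =
      yy ψ (m + 1) ((m + 1 + 1 + a : ℕ) : ZMod p) := by
  rw [sum_range_succ]
  have h1 : xx ψ m (m + 1) = 0 := by simp [xx]
  rw [h1, mul_zero, add_zero]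
  unfold yy
  refine Finset.sum_congr rfl fun k hk => ?_
  have hk' : k < m + 1 := by simpa using hk
  rw [xx, if_pos hk']
  congr 2
  push_cast; ring

lemma sum_xx' (m : ℕ) (a : ℕ) :
    ∑ k ∈ range (m + 2), chi p K ((a : ZMod p) - (k : ZMod p)) * xx' ψ k =
      yy ψ (m + 1) ((m + 1 + a : ℕ) : ZMod p) := by
  rw [sum_range_succ']
  have h1 : xx' ψ 0 = 0 := by simp [xx']
  rw [h1, mul_zero, add_zero]
  unfold yy
  refine Finset.sum_congr rfl fun k _ => ?_
  rw [xx', if_neg (Nat.succ_ne_zero k)]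
  congr 2
  push_cast; ring

variable {ψ}

lemma tau_sum_xx {m : ℕ} (hm : p = 2 * m + 3) (hp4 : p % 4 = 3) (h2K : (2 : K) ≠ 0)
    (hψ : ψ.IsPrimitive) {a : ℕ} (ha : a < m + 2) :
    gaussSum (chi p K) ψ *
      ∑ k ∈ range (m + 2), chi p K ((a : ZMod p) - (k : ZMod p)) * xx ψ m k =
      if a = m + 1 then (p : K) * (PP ψ).coeff 0 else 0 := by
  rw [sum_xx, y_main (n := m + 1) (by omega) hp4 h2K hψ]
  have key : ∀ k ∈ range (m + 1 + 1), (if ((k : ℕ) : ZMod p) = ((m + 1 + 1 + a : ℕ) : ZMod p) then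
      (PP ψ).coeff (2 * k) else 0) =
      if k = 0 then (if a = m + 1 then (PP ψ).coeff 0 else 0) else 0 := by
    intro k hk
    have hk' : k < m + 2 := by have := mem_range.mp hk; omega
    have hiff : ((k : ℕ) : ZMod p) = ((m + 1 + 1 + a : ℕ) : ZMod p) ↔ (k = 0 ∧ a = m + 1) := by
      rw [ZMod.natCast_eq_natCast_iff']
      rw [Nat.mod_eq_of_lt (show k < p by omega)]
      by_cases hc : a = m + 1
      · rw [show m + 1 + 1 + a = p by omega, Nat.mod_self]
        simp [hc]
      · rw [Nat.mod_eq_of_lt (show m + 1 + 1 + a < p by omega)]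
        constructor
        · intro h; omega
        · intro h; omega
    by_cases h1 : k = 0 ∧ a = m + 1
    · rw [if_pos (hiff.mpr h1), if_pos h1.1, if_pos h1.2, h1.1]
    · rw [if_neg (fun h => h1 (hiff.mp h))]
      by_cases h2 : k = 0
      · rw [if_pos h2, if_neg (fun h => h1 ⟨h2, h⟩)]
      · rw [if_neg h2]
  rw [Finset.sum_congr rfl key, Finset.sum_ite_eq' (range (m + 1 + 1)) 0]
  simp only [mem_range, Nat.zero_lt_succ, if_true]
  split_ifs <;> simp

lemma tau_sum_xx' {m : ℕ} (hm : p = 2 * m + 3) (hp4 : p % 4 = 3) (h2K : (2 : K) ≠ 0)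
    (hψ : ψ.IsPrimitive) {a : ℕ} (ha : a < m + 2) :
    gaussSum (chi p K) ψ *
      ∑ k ∈ range (m + 2), chi p K ((a : ZMod p) - (k : ZMod p)) * xx' ψ k =
      if a = 0 then (p : K) else 0 := by
  rw [sum_xx', y_main (n := m + 1) (by omega) hp4 h2K hψ]
  have key : ∀ k ∈ range (m + 1 + 1), (if ((k : ℕ) : ZMod p) = ((m + 1 + a : ℕ) : ZMod p) then
      (PP ψ).coeff (2 * k) else 0) =
      if k = m + 1 then (if a = 0 then (PP ψ).coeff (2 * (m + 1)) else 0) else 0 := by
    intro k hk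
    have hk' : k < m + 2 := by have := mem_range.mp hk; omega
    have hiff : ((k : ℕ) : ZMod p) = ((m + 1 + a : ℕ) : ZMod p) ↔ (k = m + 1 ∧ a = 0) := by
      rw [ZMod.natCast_eq_natCast_iff']
      rw [Nat.mod_eq_of_lt (show k < p by omega), Nat.mod_eq_of_lt (show m + 1 + a < p by omega)]
      omega
    by_cases h1 : k = m + 1 ∧ a = 0
    · rw [if_pos (hiff.mpr h1), if_pos h1.1, if_pos h1.2, h1.1]
    · rw [if_neg (fun h => h1 (hiff.mp h))]
      by_cases h2 : k = m + 1
      · rw [if_pos h2, if_neg (fun h => h1 ⟨h2, h⟩)]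
      · rw [if_neg h2]
  rw [Finset.sum_congr rfl key, Finset.sum_ite_eq' (range (m + 1 + 1)) (m + 1)]
  have hc : (PP ψ).coeff (2 * (m + 1)) = 1 := by
    have h1 := PP_monic ψ
    have h2 := PP_natDegree ψ
    rw [Polynomial.Monic, Polynomial.leadingCoeff, h2, show p - 1 = 2 * (m + 1) by omega] at h1
    exact h1
  rw [hc]
  simp only [mem_range]
  rw [if_pos (by omega)]
  split_ifs <;> simp

/-- coefficient `2n-1` of `P₀` -/
lemma coeff_last {m : ℕ} (hm : p = 2 * m + 3) (hp4 : p % 4 = 3) :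
    (PP ψ).coeff (2 * m + 1) = - (chi p K 2 * gaussSum (chi p K) ψ) := by
  have h2 : (2 : ZMod p) ≠ 0 := two_ne_zero_zmod hp4
  have h1 := prod_X_sub_C_coeff_card_pred (univ : Finset (ZMod p)ˣ) (tt ψ)
    (Finset.card_pos.mpr ⟨1, Finset.mem_univ _⟩)
  have hcard : #(univ : Finset (ZMod p)ˣ) = p - 1 := by
    rw [Finset.card_univ, ZMod.card_units_eq_totient, Nat.totient_prime hp.out]
  rw [hcard, show p - 1 - 1 = 2 * m + 1 by omega] at h1
  have h3 : (PP ψ) = ∏ i : (ZMod p)ˣ, (X - C (tt ψ i)) := rfl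
  rw [h3, h1]
  congr 1
  unfold tt gaussSum
  rw [sum_zmod_eq_units (fun a : ZMod p => chi p K a * ψ a)]
  rw [MulChar.map_zero, zero_mul, zero_add, Finset.mul_sum]
  refine Finset.sum_congr rfl fun b _ => ?_
  rw [map_mul]; ring

lemma coeff_zero_ne (hp4 : p % 4 = 3) : (PP ψ).coeff 0 ≠ 0 := by
  rw [coeff_zero_eq_eval_zero]
  unfold PP
  rw [eval_prod, Finset.prod_ne_zero_iff]
  intro b _
  simp only [eval_sub, eval_X, eval_C, zero_sub, ne_eq, neg_eq_zero]
  exact tt_ne_zero ψ hp4 b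

/-- skew symmetry trick: `c_0 c_{2n-1} = - c_1`. -/
lemma coeff_one_rel {m : ℕ} (hm : p = 2 * m + 3) (hp4 : p % 4 = 3) (h2K : (2 : K) ≠ 0)
    (hpK : (p : K) ≠ 0) (hψ : ψ.IsPrimitive) :
    (PP ψ).coeff 0 * (PP ψ).coeff (2 * m + 1) = - (PP ψ).coeff 1 := by
  set τ := gaussSum (chi p K) ψ with hτ
  have e1 : ∑ a ∈ range (m + 2), xx' ψ a * (τ *
      ∑ k ∈ range (m + 2), chi p K ((a : ZMod p) - (k : ZMod p)) * xx ψ m k) =
      (p : K) * (PP ψ).coeff 0 * (PP ψ).coeff (2 * m + 1) := by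
    have : ∀ a ∈ range (m + 2), xx' ψ a * (τ *
      ∑ k ∈ range (m + 2), chi p K ((a : ZMod p) - (k : ZMod p)) * xx ψ m k) =
      if a = m + 1 then xx' ψ a * ((p : K) * (PP ψ).coeff 0) else 0 := by
      intro a ha
      rw [tau_sum_xx hm hp4 h2K hψ (by simpa using ha)]
      split_ifs <;> simp
    rw [Finset.sum_congr rfl this, Finset.sum_ite_eq' (range (m + 2)) (m + 1)]
    simp only [mem_range]
    rw [if_pos (by omega), xx', if_neg (by omega), show 2 * (m + 1) - 1 = 2 * m + 1 by omega]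
    ring
  have e2 : ∑ a ∈ range (m + 2), xx ψ m a * (τ *
      ∑ k ∈ range (m + 2), chi p K ((a : ZMod p) - (k : ZMod p)) * xx' ψ k) =
      (p : K) * (PP ψ).coeff 1 := by
    have : ∀ a ∈ range (m + 2), xx ψ m a * (τ *
      ∑ k ∈ range (m + 2), chi p K ((a : ZMod p) - (k : ZMod p)) * xx' ψ k) =
      if a = 0 then xx ψ m a * (p : K) else 0 := by
      intro a ha
      rw [tau_sum_xx' hm hp4 h2K hψ (by simpa using ha)]
      split_ifs <;> simp
    rw [Finset.sum_congr rfl this, Finset.sum_ite_eq' (range (m + 2)) 0]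
    simp only [mem_range]
    rw [if_pos (by omega), xx, if_pos (by omega), mul_zero, zero_add]
    ring
  have e3 : ∑ a ∈ range (m + 2), xx' ψ a * (τ *
      ∑ k ∈ range (m + 2), chi p K ((a : ZMod p) - (k : ZMod p)) * xx ψ m k) =
      - ∑ a ∈ range (m + 2), xx ψ m a * (τ *
      ∑ k ∈ range (m + 2), chi p K ((a : ZMod p) - (k : ZMod p)) * xx' ψ k) := by
    simp_rw [Finset.mul_sum]
    rw [Finset.sum_comm, ← Finset.sum_neg_distrib]
    refine Finset.sum_congr rfl fun a _ => ?_
    rw [← Finset.sum_neg_distrib]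
    refine Finset.sum_congr rfl fun k _ => ?_
    have : chi p K ((k : ZMod p) - (a : ZMod p)) = - chi p K ((a : ZMod p) - (k : ZMod p)) := by
      rw [← chi_neg hp4, neg_sub]
    rw [this]; ring
  rw [e1, e2] at e3
  have : (p : K) * ((PP ψ).coeff 0 * (PP ψ).coeff (2 * m + 1)) = (p : K) * (- (PP ψ).coeff 1) := by
    linear_combination e3
  exact mul_left_cancel₀ hpK this

/-- the index map -/
def posFun (m : ℕ) : Fin m ⊕ Fin 2 → Fin (m + 2)
  | Sum.inl i => ⟨(i : ℕ) + 1, by have := i.2; omega⟩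
  | Sum.inr i => ⟨(i : ℕ) * (m + 1), by
      have := i.2
      have h : (i : ℕ) = 0 ∨ (i : ℕ) = 1 := by omega
      rcases h with h | h <;> rw [h] <;> omega⟩

lemma posFun_inl (m : ℕ) (i : Fin m) : (posFun m (Sum.inl i) : ℕ) = i + 1 := rfl

lemma posFun_inr0 (m : ℕ) : (posFun m (Sum.inr 0) : ℕ) = 0 := by
  show 0 * (m + 1) = 0
  omega

lemma posFun_inr1 (m : ℕ) : (posFun m (Sum.inr 1) : ℕ) = m + 1 := by
  show 1 * (m + 1) = m + 1
  omega

lemma posFun_bijective (m : ℕ) : Function.Bijective (posFun m) := by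
  have hinj : Function.Injective (posFun m) := by
    intro a b h
    have h' : (posFun m a : ℕ) = (posFun m b : ℕ) := by rw [h]
    rcases a with a | a <;> rcases b with b | b
    · rw [posFun_inl, posFun_inl] at h'
      congr 1
      exact Fin.ext (by omega)
    · exfalso
      rw [posFun_inl] at h'
      have := a.2
      fin_cases b
      · have h2 := posFun_inr0 m
        simp only [Fin.zero_eta] at h'
        omega
      · have h2 := posFun_inr1 m
        simp only [Fin.mk_one] at h'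
        omega
    · exfalso
      rw [posFun_inl] at h'
      have := b.2
      fin_cases a
      · have h2 := posFun_inr0 m
        simp only [Fin.zero_eta] at h'
        omega
      · have h2 := posFun_inr1 m
        simp only [Fin.mk_one] at h'
        omega
    · have h2 := posFun_inr0 m
      have h3 := posFun_inr1 m
      fin_cases a <;> fin_cases b <;> simp only [Fin.zero_eta, Fin.mk_one] at h' ⊢ <;> omega
  rw [Fintype.bijective_iff_injective_and_card]
  exact ⟨hinj, by simp⟩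

/-- the index equivalence -/
noncomputable def posEquiv (m : ℕ) : Fin m ⊕ Fin 2 ≃ Fin (m + 2) :=
  Equiv.ofBijective _ (posFun_bijective m)

lemma posEquiv_apply (m : ℕ) (a) : posEquiv m a = posFun m a := rfl

lemma sum_pos {M : Type*} [AddCommMonoid M] (m : ℕ) (F : ℕ → M) :
    ∑ b : Fin m ⊕ Fin 2, F (posFun m b) = ∑ k ∈ range (m + 2), F k := by
  rw [← Fin.sum_univ_eq_sum_range]
  exact Fintype.sum_equiv (posEquiv m) _ _ fun _ => rfl

theorem det_eq {m : ℕ} (hm : p = 2 * m + 3) (hp4 : p % 4 = 3) (h2K : (2 : K) ≠ 0)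
    (hpK : (p : K) ≠ 0) (hψ : ψ.IsPrimitive) :
    (TT p K (m + 2)).det = (TT p K m).det := by
  set τ := gaussSum (chi p K) ψ with hτ
  have hτ2 : τ ^ 2 = - (p : K) := gauss_sq hp4 h2K hψ
  have hτ0 : τ ≠ 0 := by
    intro h
    rw [h] at hτ2
    apply hpK
    linear_combination hτ2
  set c0 := (PP ψ).coeff 0 with hc0
  set c1 := (PP ψ).coeff 1 with hc1
  set cl := (PP ψ).coeff (2 * m + 1) with hcl
  have hrel : c0 * cl = - c1 := coeff_one_rel hm hp4 h2K hpK hψ
  have hlast : cl = - (chi p K 2 * τ) := coeff_last hm hp4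
  have hc0ne : c0 ≠ 0 := coeff_zero_ne hp4
  have hchi2 : chi p K 2 * chi p K 2 = 1 := chi_sq (two_ne_zero_zmod hp4)
  -- matrices
  let T' : Matrix (Fin m ⊕ Fin 2) (Fin m ⊕ Fin 2) K :=
    (TT p K (m + 2)).submatrix (posEquiv m) (posEquiv m)
  have hT'det : T'.det = (TT p K (m + 2)).det := Matrix.det_submatrix_equiv_self _ _
  let Xm : Matrix (Fin m) (Fin 2) K :=
    Matrix.of fun i j => if j = 0 then xx ψ m (i + 1) else xx' ψ (i + 1)
  let E : Matrix (Fin 2) (Fin 2) K := !![c1, 0; 0, cl]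
  let Q : Matrix (Fin m ⊕ Fin 2) (Fin m ⊕ Fin 2) K := Matrix.fromBlocks 1 Xm 0 E
  let Cm : Matrix (Fin 2) (Fin m) K := Matrix.of fun i j => T' (Sum.inr i) (Sum.inl j)
  let G : Matrix (Fin 2) (Fin 2) K := !![0, (p : K) / τ; (p : K) * c0 / τ, 0]
  have hT'app : ∀ a b, T' a b =
      chi p K (((posFun m a : ℕ) : ZMod p) - ((posFun m b : ℕ) : ZMod p)) := fun a b => rfl
  have hQ0 : ∀ b, Q b (Sum.inr 0) = xx ψ m (posFun m b) := by
    intro b
    rcases b with b | b
    · rw [posFun_inl]; simp [Q, Xm]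
    · fin_cases b
      · show Q (Sum.inr 0) (Sum.inr 0) = xx ψ m (posFun m (Sum.inr 0))
        rw [posFun_inr0]; simp [Q, E, xx, hc1]
      · show Q (Sum.inr 1) (Sum.inr 0) = xx ψ m (posFun m (Sum.inr 1))
        rw [posFun_inr1]; simp [Q, E, xx]
  have hQ1 : ∀ b, Q b (Sum.inr 1) = xx' ψ (posFun m b) := by
    intro b
    rcases b with b | b
    · rw [posFun_inl]; simp [Q, Xm]
    · fin_cases b
      · show Q (Sum.inr 0) (Sum.inr 1) = xx' ψ (posFun m (Sum.inr 0))
        rw [posFun_inr0]; simp [Q, E, xx']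
      · show Q (Sum.inr 1) (Sum.inr 1) = xx' ψ (posFun m (Sum.inr 1))
        rw [posFun_inr1]; simp [Q, E, xx', hcl, show 2 * (m + 1) - 1 = 2 * m + 1 by omega]
  have hcol0 : ∀ a, (T' * Q) a (Sum.inr 0) =
      if (posFun m a : ℕ) = m + 1 then (p : K) * c0 / τ else 0 := by
    intro a
    rw [Matrix.mul_apply]
    have h1 : ∑ b, T' a b * Q b (Sum.inr 0) = ∑ k ∈ range (m + 2),
        chi p K (((posFun m a : ℕ) : ZMod p) - (k : ZMod p)) * xx ψ m k := by
      rw [← sum_pos m (fun k => chi p K (((posFun m a : ℕ) : ZMod p) - (k : ZMod p)) * xx ψ m k)]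
      exact Finset.sum_congr rfl fun b _ => by rw [hT'app, hQ0]
    have h2 := tau_sum_xx hm hp4 h2K hψ (a := (posFun m a : ℕ)) (posFun m a).2
    rw [h1]
    have h3 : τ * ∑ k ∈ range (m + 2),
        chi p K (((posFun m a : ℕ) : ZMod p) - (k : ZMod p)) * xx ψ m k =
        τ * (if (posFun m a : ℕ) = m + 1 then (p : K) * c0 / τ else 0) := by
      rw [h2]
      split_ifs
      · rw [mul_div_cancel₀ _ hτ0]
      · simp
    exact mul_left_cancel₀ hτ0 h3
  have hcol1 : ∀ a, (T' * Q) a (Sum.inr 1) =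
      if (posFun m a : ℕ) = 0 then (p : K) / τ else 0 := by
    intro a
    rw [Matrix.mul_apply]
    have h1 : ∑ b, T' a b * Q b (Sum.inr 1) = ∑ k ∈ range (m + 2),
        chi p K (((posFun m a : ℕ) : ZMod p) - (k : ZMod p)) * xx' ψ k := by
      rw [← sum_pos m (fun k => chi p K (((posFun m a : ℕ) : ZMod p) - (k : ZMod p)) * xx' ψ k)]
      exact Finset.sum_congr rfl fun b _ => by rw [hT'app, hQ1]
    have h2 := tau_sum_xx' hm hp4 h2K hψ (a := (posFun m a : ℕ)) (posFun m a).2
    rw [h1]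
    have h3 : τ * ∑ k ∈ range (m + 2),
        chi p K (((posFun m a : ℕ) : ZMod p) - (k : ZMod p)) * xx' ψ k =
        τ * (if (posFun m a : ℕ) = 0 then (p : K) / τ else 0) := by
      rw [h2]
      split_ifs
      · rw [mul_div_cancel₀ _ hτ0]
      · simp
    exact mul_left_cancel₀ hτ0 h3
  have hprod : T' * Q = Matrix.fromBlocks (TT p K m) 0 Cm G := by
    ext a b
    rcases b with b | b
    · have : (T' * Q) a (Sum.inl b) = T' a (Sum.inl b) := by
        rw [Matrix.mul_apply, Fintype.sum_sum_type]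
        simp [Q, Matrix.one_apply]
      rw [this]
      rcases a with a | a
      · rw [hT'app, Matrix.fromBlocks_apply₁₁, TT, Matrix.of_apply, posFun_inl, posFun_inl]
        congr 1
        push_cast; ring
      · rw [Matrix.fromBlocks_apply₂₁]; rfl
    · fin_cases b
      · show (T' * Q) a (Sum.inr 0) = _
        rw [hcol0]
        rcases a with a | a
        · have : ¬ ((posFun m (Sum.inl a) : ℕ) = m + 1) := by
            rw [posFun_inl]; omega
          rw [if_neg this]; simp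
        · fin_cases a
          · show (if (posFun m (Sum.inr 0) : ℕ) = m + 1 then (p : K) * c0 / τ else 0) = _
            rw [posFun_inr0]; simp [G]
          · show (if (posFun m (Sum.inr 1) : ℕ) = m + 1 then (p : K) * c0 / τ else 0) = _
            rw [posFun_inr1]; simp [G]
      · show (T' * Q) a (Sum.inr 1) = _
        rw [hcol1]
        rcases a with a | a
        · have : ¬ ((posFun m (Sum.inl a) : ℕ) = 0) := by
            rw [posFun_inl]; omega
          rw [if_neg this]; simp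
        · fin_cases a
          · show (if (posFun m (Sum.inr 0) : ℕ) = 0 then (p : K) / τ else 0) = _
            rw [posFun_inr0]; simp [G]
          · show (if (posFun m (Sum.inr 1) : ℕ) = 0 then (p : K) / τ else 0) = _
            rw [posFun_inr1]; simp [G]
  have hdet := congrArg Matrix.det hprod
  rw [Matrix.det_mul, Matrix.det_fromBlocks_zero₂₁, Matrix.det_fromBlocks_zero₁₂, Matrix.det_one,
    one_mul, hT'det, Matrix.det_fin_two_of, Matrix.det_fin_two_of] at hdet
  -- hdet : det T * (c1*cl - 0) = det TT m * (0 - p/τ * (p c0/τ))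
  have h5 : (TT p K (m + 2)).det * (c1 * cl) = (TT p K m).det * ((p : K) * c0) := by
    have h6 : (p : K) / τ * ((p : K) * c0 / τ) = - ((p : K) * c0) := by
      have : (p : K) / τ * ((p : K) * c0 / τ) = (p : K) * (p : K) * c0 / τ ^ 2 := by
        field_simp
      rw [this, hτ2]
      field_simp
    have h7 : (TT p K (m + 2)).det * (c1 * cl) =
        (TT p K m).det * (0 * 0 - (p : K) / τ * ((p : K) * c0 / τ)) := by
      rw [← hdet]; ring
    rw [h7, h6]; ring
  -- c1 = - c0 cl, cl^2 = τ^2 = -p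
  have hcl2 : cl * cl = - (p : K) := by
    rw [hlast]
    linear_combination τ ^ 2 * hchi2 + hτ2
  have h8 : (TT p K (m + 2)).det * ((p : K) * c0) = (TT p K m).det * ((p : K) * c0) := by
    rw [← h5]
    linear_combination (-(TT p K (m + 2)).det * cl) * hrel + (-(TT p K (m + 2)).det * c0) * hcl2 * (-1)
  exact mul_right_cancel₀ (mul_ne_zero hpK hc0ne) h8

end DetEq

end Pool.Agent.Work.MP_0c110c_nt
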