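import Pool.Agent.Work.MP_0c110c_nt.DetEq

set_option autoImplicit false

namespace Pool.Agent.Work.MP_0c110c_nt

open Finset Polynomial

section Nonsing

variable {p : ℕ} [hp : Fact p.Prime] {K : Type*} [Field K]

lemma sum_zmod_eq_range {M : Type*} [AddCommMonoid M] (F : ZMod p → M) :
    ∑ a : ZMod p, F a = ∑ i ∈ range p, F (i : ZMod p) := by
  symm
  refine Finset.sum_bij (fun (i : ℕ) _ => (i : ZMod p)) ?_ ?_ ?_ ?_
  · intro i _; exact Finset.mem_univ _
  · intro i hi j hj h
    rw [ZMod.natCast_eq_natCast_iff', Nat.mod_eq_of_lt (mem_range.mp hi),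
      Nat.mod_eq_of_lt (mem_range.mp hj)] at h
    exact h
  · intro a _
    exact ⟨a.val, mem_range.mpr (ZMod.val_lt a), ZMod.natCast_zmod_val a⟩
  · intro i _; rfl

variable {ψ : AddChar (ZMod p) K}

theorem det_ne_zero_generic {m : ℕ} (hm : p = 2 * m + 3) (hp4 : p % 4 = 3) (h2K : (2 : K) ≠ 0)
    (hpK : (p : K) ≠ 0) (hψ : ψ.IsPrimitive) :
    (TT p K (m + 2)).det ≠ 0 := by
  classical
  intro hdet
  obtain ⟨v, hv0, hv⟩ := Matrix.exists_mulVec_eq_zero_iff.mpr hdet
  apply hv0
  set τ := gaussSum (chi p K) ψ with hτ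
  have hτ2 : τ ^ 2 = - (p : K) := gauss_sq hp4 h2K hψ
  have hτ0 : τ ≠ 0 := by
    intro h
    rw [h] at hτ2
    apply hpK
    linear_combination hτ2
  have hn : p = 2 * (m + 1) + 1 := by omega
  let vv : ℕ → K := fun k => if h : k < m + 2 then v ⟨k, h⟩ else 0
  let y : ZMod p → K := fun j => ∑ k ∈ range (m + 2), chi p K (j - (k : ZMod p)) * vv k
  have hy : ∀ a : ℕ, a < m + 2 → y (a : ZMod p) = 0 := by
    intro a ha
    have h1 := congrFun hv ⟨a, ha⟩
    rw [Matrix.mulVec, dotProduct] at h1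
    have h2 : y (a : ZMod p) = ∑ k : Fin (m + 2), TT p K (m + 2) ⟨a, ha⟩ k * v k := by
      show ∑ k ∈ range (m + 2), chi p K ((a : ZMod p) - (k : ZMod p)) * vv k = _
      rw [← Fin.sum_univ_eq_sum_range (fun k => chi p K ((a : ZMod p) - (k : ZMod p)) * vv k)]
      refine Finset.sum_congr rfl fun k _ => ?_
      have : vv (k : ℕ) = v k := by simp [vv]
      rw [this]; rfl
    rw [h2]; exact h1
  -- claim 1
  have claim1 : ∀ a : ZMod p, ∑ i ∈ range (m + 1), y ((m + 1 + 1 + i : ℕ) : ZMod p) *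
      ψ (a * ((m + 1 + 1 + i : ℕ) : ZMod p)) =
      chi p K a * τ * ∑ k ∈ range (m + 2), vv k * ψ (a * (k : ZMod p)) := by
    intro a
    have e1 : ∑ j : ZMod p, y j * ψ (a * j) =
        chi p K a * τ * ∑ k ∈ range (m + 2), vv k * ψ (a * (k : ZMod p)) := by
      have e2 : ∀ j : ZMod p, y j * ψ (a * j) =
          ∑ k ∈ range (m + 2), chi p K (j - (k : ZMod p)) * ψ (a * (j - (k : ZMod p))) *
            (vv k * ψ (a * (k : ZMod p))) := by
        intro j
        show (∑ k ∈ range (m + 2), chi p K (j - (k : ZMod p)) * vv k) * ψ (a * j) = _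
        rw [Finset.sum_mul]
        refine Finset.sum_congr rfl fun k _ => ?_
        have : ψ (a * j) = ψ (a * (j - (k : ZMod p))) * ψ (a * (k : ZMod p)) := by
          rw [← AddChar.map_add_eq_mul]; congr 1; ring
        rw [this]; ring
      rw [Finset.sum_congr rfl fun j _ => e2 j, Finset.sum_comm, Finset.mul_sum]
      refine Finset.sum_congr rfl fun k _ => ?_
      rw [← Finset.sum_mul]
      congr 1
      rw [← gauss_shift ψ hp4 a]
      exact Fintype.sum_equiv (Equiv.subRight (k : ZMod p)) _ _ fun j => rfl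
    rw [← e1, sum_zmod_eq_range]
    have hr : range p = range ((m + 2) + (m + 1)) := by congr 1; omega
    rw [hr, Finset.sum_range_add (fun i : ℕ => y (i : ZMod p) * ψ (a * (i : ZMod p))) (m + 2) (m + 1)]
    have e3 : ∑ x ∈ range (m + 2), y ((x : ℕ) : ZMod p) * ψ (a * ((x : ℕ) : ZMod p)) = 0 := by
      refine Finset.sum_eq_zero fun x hx => ?_
      rw [hy x (mem_range.mp hx), zero_mul]
    rw [e3, zero_add]
  -- the polynomial
  let R : K[X] := ∑ i ∈ range (m + 1), C (y ((m + 1 + 1 + i : ℕ) : ZMod p)) * X ^ (2 * i + 1) -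
    C τ * ∑ k ∈ range (m + 2), C (vv k) * X ^ (2 * k)
  have hReval : ∀ t : K, R.eval t =
      ∑ i ∈ range (m + 1), y ((m + 1 + 1 + i : ℕ) : ZMod p) * t ^ (2 * i + 1) -
      τ * ∑ k ∈ range (m + 2), vv k * t ^ (2 * k) := by
    intro t
    simp only [R, eval_sub, eval_mul, eval_finsetSum, eval_C, eval_pow, eval_X]
  have hRcoeff : ∀ N : ℕ, R.coeff N =
      (∑ i ∈ range (m + 1), if N = 2 * i + 1 then y ((m + 1 + 1 + i : ℕ) : ZMod p) else 0) -
      τ * ∑ k ∈ range (m + 2), if N = 2 * k then vv k else 0 := by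
    intro N
    simp only [R, coeff_sub, coeff_C_mul, finsetSum_coeff, coeff_X_pow, mul_ite, mul_one, mul_zero]
  have claim2 : ∀ b : (ZMod p)ˣ, R.eval (tt ψ b) = 0 := by
    intro b
    have h2b : (2 * (b : ZMod p)) ≠ 0 := mul_ne_zero (two_ne_zero_zmod hp4) b.ne_zero
    have hc := chi_sq (K := K) h2b
    have h1 := claim1 (2 * (b : ZMod p))
    have e1 : ∑ i ∈ range (m + 1), y ((m + 1 + 1 + i : ℕ) : ZMod p) * tt ψ b ^ (2 * i + 1) =
        chi p K (2 * (b : ZMod p)) * ∑ i ∈ range (m + 1), y ((m + 1 + 1 + i : ℕ) : ZMod p) *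
      ψ (2 * (b : ZMod p) * ((m + 1 + 1 + i : ℕ) : ZMod p)) := by
      rw [Finset.mul_sum]
      refine Finset.sum_congr rfl fun i _ => ?_
      rw [psi_two_mul hn, pow_succ, pow_mul, tt_sq ψ hp4]
      unfold tt; ring
    have e2 : ∑ k ∈ range (m + 2), vv k * ψ (2 * (b : ZMod p) * (k : ZMod p)) =
        ∑ k ∈ range (m + 2), vv k * tt ψ b ^ (2 * k) := by
      refine Finset.sum_congr rfl fun k _ => ?_
      rw [pow_mul, tt_sq ψ hp4, ← AddChar.map_nsmul_eq_pow, nsmul_eq_mul]
      congr 2; ring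
    rw [hReval, e1, h1, e2]
    linear_combination (τ * ∑ k ∈ range (m + 2), vv k * tt ψ b ^ (2 * k)) * hc
  have claim3 : R.eval (-1) = R.eval 1 := by
    have h1 := claim1 0
    rw [MulChar.map_zero, zero_mul, zero_mul] at h1
    simp only [zero_mul, AddChar.map_zero_eq_one, mul_one] at h1
    rw [hReval, hReval]
    have e1 : ∀ k : ℕ, (-1 : K) ^ (2 * k) = 1 := fun k => by rw [pow_mul]; simp
    have e2 : ∀ k : ℕ, (-1 : K) ^ (2 * k + 1) = -1 := fun k => by rw [pow_succ, e1]; ring
    simp only [e1, e2, one_pow, mul_one, mul_neg, Finset.sum_neg_distrib, h1, neg_zero]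
  -- degree considerations
  set r := R.coeff (2 * (m + 1)) with hr
  have hPdeg : (PP ψ).natDegree = 2 * (m + 1) := by rw [PP_natDegree]; omega
  have hPlead : (PP ψ).coeff (2 * (m + 1)) = 1 := by
    have h1 := PP_monic ψ
    rw [Polynomial.Monic, Polynomial.leadingCoeff, hPdeg] at h1
    exact h1
  have hzero : R - C r * PP ψ = 0 := by
    refine eq_zero_of_degree_lt_of_eval_index_eq_zero (v := tt ψ) (univ : Finset (ZMod p)ˣ)
      (fun b _ c _ h => tt_injective hp4 hψ h) ?_ ?_
    · have hcard : #(univ : Finset (ZMod p)ˣ) = 2 * (m + 1) := by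
        rw [Finset.card_univ, ZMod.card_units_eq_totient, Nat.totient_prime hp.out]; omega
      rw [hcard, degree_lt_iff_coeff_zero]
      intro N hN
      rw [coeff_sub, coeff_C_mul]
      rcases Nat.eq_or_lt_of_le hN with h | h
      · rw [← h, hPlead, hr]; ring
      · have hPz : (PP ψ).coeff N = 0 := coeff_eq_zero_of_natDegree_lt (by rw [hPdeg]; exact h)
        rw [hPz, mul_zero, sub_zero, hRcoeff]
        have z1 : (∑ i ∈ range (m + 1), if N = 2 * i + 1 then y ((m + 1 + 1 + i : ℕ) : ZMod p)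
            else 0) = 0 := by
          refine Finset.sum_eq_zero fun i hi => ?_
          have := mem_range.mp hi
          rw [if_neg (by omega)]
        have z2 : (∑ k ∈ range (m + 2), if N = 2 * k then vv k else 0) = 0 := by
          refine Finset.sum_eq_zero fun i hi => ?_
          have := mem_range.mp hi
          rw [if_neg (by omega)]
        rw [z1, z2]; ring
    · intro b _
      rw [eval_sub, eval_mul, eval_C, claim2, PP_eval]; ring
  have hR : R = C r * PP ψ := by linear_combination hzero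
  have hr0 : r = 0 := by
    rw [hR] at claim3
    simp only [eval_mul, eval_C, PP_eval_neg_one ψ hp4] at claim3
    have h1 : (2 : K) * (r * (PP ψ).eval 1) = 0 := by linear_combination -claim3
    have h2 := (mul_eq_zero.mp h1).resolve_left h2K
    exact (mul_eq_zero.mp h2).resolve_right (PP_eval_one_ne_zero hp4 hψ)
  have hR0 : R = 0 := by rw [hR, hr0]; simp
  ext k
  have h1 := hRcoeff (2 * (k : ℕ))
  rw [hR0, coeff_zero] at h1
  have z1 : (∑ i ∈ range (m + 1), if 2 * (k : ℕ) = 2 * i + 1 then y ((m + 1 + 1 + i : ℕ) : ZMod p)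
      else 0) = 0 := by
    refine Finset.sum_eq_zero fun i hi => ?_
    rw [if_neg (by omega)]
  have z2 : (∑ k' ∈ range (m + 2), if 2 * (k : ℕ) = 2 * k' then vv k' else 0) = v k := by
    have : ∀ k' ∈ range (m + 2), (if 2 * (k : ℕ) = 2 * k' then vv k' else 0) =
        if k' = (k : ℕ) then vv k' else 0 := by
      intro k' _
      by_cases h : k' = (k : ℕ)
      · rw [if_pos h, if_pos (by omega)]
      · rw [if_neg h, if_neg (by omega)]
    rw [Finset.sum_congr rfl this, Finset.sum_ite_eq' (range (m + 2)) (k : ℕ),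
      if_pos (mem_range.mpr k.2)]
    simp [vv]
  rw [z1, z2, zero_sub] at h1
  have h2 : τ * v k = 0 := by linear_combination h1
  exact (mul_eq_zero.mp h2).resolve_left hτ0

end Nonsing

end Pool.Agent.Work.MP_0c110c_nt
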