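import Pool.Agent.Work.MP_0c110c_nt.Nonsing

set_option autoImplicit false

namespace Pool.Agent.Work.MP_0c110c_nt

open Finset Polynomial

section Special

variable {p : ℕ} [hp : Fact p.Prime]

/-- the case of the prime `2` -/
theorem det_ne_zero_two {m : ℕ} (hm : p = 2 * m + 3) (hp4 : p % 4 = 3) :
    (TT p (ZMod 2) (m + 2)).det ≠ 0 := by
  classical
  intro hdet
  obtain ⟨v, hv0, hv⟩ := Matrix.exists_mulVec_eq_zero_iff.mpr hdet
  apply hv0
  have hchi : ∀ a : ZMod p, a ≠ 0 → chi p (ZMod 2) a = 1 := by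
    intro a ha
    have h1 := chi_sq (K := ZMod 2) ha
    have h2 : ∀ x : ZMod 2, x * x = 1 → x = 1 := by decide
    exact h2 _ h1
  have hentry : ∀ j k : Fin (m + 2), TT p (ZMod 2) (m + 2) j k = if k = j then 0 else 1 := by
    intro j k
    show chi p (ZMod 2) (((j : ℕ) : ZMod p) - ((k : ℕ) : ZMod p)) = _
    by_cases h : k = j
    · rw [if_pos h, h, sub_self, MulChar.map_zero]
    · rw [if_neg h]
      apply hchi
      intro h0
      rw [sub_eq_zero, ZMod.natCast_eq_natCast_iff', Nat.mod_eq_of_lt (by have := j.2; omega),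
        Nat.mod_eq_of_lt (by have := k.2; omega)] at h0
      exact h (Fin.ext h0.symm)
  have h1 : ∀ j, v j = ∑ k, v k := by
    intro j
    have h2 := congrFun hv j
    rw [Matrix.mulVec, dotProduct] at h2
    have h3 : ∑ k, TT p (ZMod 2) (m + 2) j k * v k = ∑ k, v k - v j := by
      rw [← Finset.add_sum_erase univ v (Finset.mem_univ j), add_sub_cancel_left,
        ← Finset.add_sum_erase univ (fun k => TT p (ZMod 2) (m + 2) j k * v k) (Finset.mem_univ j)]
      simp only [hentry, if_true, zero_mul, zero_add]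
      refine Finset.sum_congr rfl fun k hk => ?_
      rw [if_neg (Finset.ne_of_mem_erase hk), one_mul]
    rw [h3] at h2
    have h4 : ∑ k, v k - v j = 0 := h2
    rw [← sub_eq_zero.mp h4]
  have h5 : ∑ k, v k = 0 := by
    have h6 : ∑ k : Fin (m + 2), v k = ∑ _k : Fin (m + 2), ∑ k, v k :=
      Finset.sum_congr rfl fun j _ => h1 j
    rw [Finset.sum_const, Finset.card_univ, Fintype.card_fin] at h6
    have key : ∀ s : ZMod 2, (m + 2) • s = 0 := by
      intro s
      have : Even (m + 2) := by rw [Nat.even_iff]; omega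
      obtain ⟨c, hc⟩ := this
      rw [hc, add_smul]
      exact CharTwo.add_self_eq_zero _
    rw [h6]
    exact key _
  ext j
  rw [h1 j, h5]; rfl

/-- the case of the prime `p` -/
theorem det_ne_zero_self {m : ℕ} (hm : p = 2 * m + 3) :
    (TT p (ZMod p) (m + 2)).det ≠ 0 := by
  classical
  intro hdet
  obtain ⟨v, hv0, hv⟩ := Matrix.exists_mulVec_eq_zero_iff.mpr hdet
  apply hv0
  have hchi : ∀ a b : ℕ, chi p (ZMod p) ((a : ZMod p) - (b : ZMod p)) =
      ((a : ZMod p) - (b : ZMod p)) ^ (m + 1) := by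
    intro a b
    have h1 := legendreSym.eq_pow p ((a : ℤ) - (b : ℤ))
    have h2 := chi_intCast (p := p) (K := ZMod p) ((a : ℤ) - (b : ℤ))
    push_cast at h1 h2
    rw [h2, h1]
    congr 1
    omega
  let G : (ZMod p)[X] := ∑ k : Fin (m + 2), C (v k) * (X + C (-((k : ℕ) : ZMod p))) ^ (m + 1)
  have hcoeff : ∀ i : ℕ, G.coeff i =
      ((m + 1).choose i : ZMod p) * ∑ k : Fin (m + 2), v k * (-((k : ℕ) : ZMod p)) ^ (m + 1 - i) := by
    intro i
    simp only [G, finsetSum_coeff, coeff_C_mul, coeff_X_add_C_pow]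
    rw [Finset.mul_sum]
    refine Finset.sum_congr rfl fun k _ => by ring
  have hG : G = 0 := by
    refine eq_zero_of_degree_lt_of_eval_index_eq_zero (v := fun j : Fin (m + 2) => ((j : ℕ) : ZMod p))
      (univ : Finset (Fin (m + 2))) ?_ ?_ ?_
    · intro i _ j _ h
      simp only at h
      rw [ZMod.natCast_eq_natCast_iff', Nat.mod_eq_of_lt (by have := i.2; omega),
        Nat.mod_eq_of_lt (by have := j.2; omega)] at h
      exact Fin.ext h
    · rw [Finset.card_univ, Fintype.card_fin, degree_lt_iff_coeff_zero]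
      intro N hN
      rw [hcoeff, Nat.choose_eq_zero_of_lt (by omega)]
      simp
    · intro j _
      have h1 := congrFun hv j
      rw [Matrix.mulVec, dotProduct] at h1
      have h2 : eval ((j : ℕ) : ZMod p) G = ∑ k, TT p (ZMod p) (m + 2) j k * v k := by
        simp only [G, eval_finsetSum, eval_mul, eval_C, eval_pow, eval_add, eval_X]
        refine Finset.sum_congr rfl fun k _ => ?_
        have h3 : TT p (ZMod p) (m + 2) j k =
          chi p (ZMod p) (((j : ℕ) : ZMod p) - ((k : ℕ) : ZMod p)) := rfl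
        rw [h3, hchi, sub_eq_add_neg]; ring
      rw [h2]; exact h1
  refine Matrix.eq_zero_of_forall_pow_sum_mul_pow_eq_zero
    (f := fun k : Fin (m + 2) => -((k : ℕ) : ZMod p)) ?_ ?_
  · intro i j h
    have h' : ((i : ℕ) : ZMod p) = ((j : ℕ) : ZMod p) := neg_injective h
    rw [ZMod.natCast_eq_natCast_iff', Nat.mod_eq_of_lt (by have := i.2; omega),
      Nat.mod_eq_of_lt (by have := j.2; omega)] at h'
    exact Fin.ext h'
  · intro i
    have h1 := hcoeff (m + 1 - (i : ℕ))
    rw [hG, coeff_zero, show m + 1 - (m + 1 - (i : ℕ)) = i by have := i.2; omega] at h1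
    have h2 : ((m + 1).choose (m + 1 - (i : ℕ)) : ZMod p) ≠ 0 := by
      intro h0
      rw [ZMod.natCast_eq_zero_iff] at h0
      have h3 : (m + 1).choose (m + 1 - (i : ℕ)) ∣ (m + 1).factorial := by
        have := Nat.choose_mul_factorial_mul_factorial (show m + 1 - (i : ℕ) ≤ m + 1 by omega)
        rw [← this, mul_assoc]
        exact Dvd.intro _ rfl
      have h4 := h0.trans h3
      rw [hp.out.dvd_factorial] at h4
      omega
    exact (mul_eq_zero.mp h1.symm).resolve_left h2

end Special

end Pool.Agent.Work.MP_0c110c_nt
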